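import Pool.Agent.N550.PS.Stm
import Pool.Agent.Y641.SH.Level

/-!
# Project PS: the fibre of a regular value is a manifold (S_FIB)
-/

set_option autoImplicit false

open Set Filter Topology Metric Function MeasureTheory
open scoped Manifold ContDiff

noncomputable section

namespace Pool.Agent.L7h23.PS

open Pool.Agent.Y522 Pool.Agent.N550.SH Pool.Agent.N550.KH Pool.Agent.N550.PS

/-- the chart of the circle at `a`, as a real function -/
def cc (a u : Sp 1) : ℝ := (chartAt (E 1) a u) 0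

theorem cc_smooth (a : Sp 1) : ∀ᶠ u in 𝓝 a, ContMDiffAt (𝓡 1) 𝓘(ℝ, ℝ) ∞ (cc a) u := by
  filter_upwards [(chartAt (E 1) a).open_source.mem_nhds (mem_chart_source (E 1) a)] with u hu
  have h1 : ContMDiffAt (𝓡 1) (𝓡 1) ∞ (chartAt (E 1) a) u :=
    ((contMDiffOn_chart (I := 𝓡 1) (n := ∞) (x := a)) u hu).contMDiffAt
      ((chartAt (E 1) a).open_source.mem_nhds hu)
  have h2 : ContDiff ℝ ∞ (fun z : E 1 => z 0) := by
    exact (EuclideanSpace.proj (0 : Fin 1) : E 1 →L[ℝ] ℝ).contDiff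
  exact (h2.contMDiff.contMDiffAt).comp u h1

theorem cc_eq {a u : Sp 1} (hu : u ∈ (chartAt (E 1) a).source) : cc a u = cc a a ↔ u = a := by
  constructor
  · intro h
    apply (chartAt (E 1) a).injOn hu (mem_chart_source (E 1) a)
    ext i
    have hi : i = 0 := Subsingleton.elim _ _
    rw [hi]
    exact h
  · rintro rfl
    rfl

theorem proj_inj {z : E 1} (h : z 0 = 0) : z = 0 := by
  ext i
  have hi : i = 0 := Subsingleton.elim _ _
  rw [hi, h]
  rfl

/-- the derivative of the coordinate is injective -/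
theorem cc_inj (a : Sp 1) : Injective (mfderiv (𝓡 1) 𝓘(ℝ, ℝ) (cc a) a) := by
  have h1 : LD 1 (chartAt (E 1) a) a := Pool.Agent.Y641.SH.LD_chart a
  have h2 := LD.mfderiv_injective h1
  have h3 : MDifferentiableAt (𝓡 1) (𝓡 1) (chartAt (E 1) a) a := h1.mdifferentiableAt
  have h4 : MDifferentiableAt (𝓡 1) 𝓘(ℝ, ℝ) (fun z : E 1 => z 0) (chartAt (E 1) a a) :=
    ((EuclideanSpace.proj (0 : Fin 1) : E 1 →L[ℝ] ℝ).differentiableAt).mdifferentiableAt
  have h5 : mfderiv (𝓡 1) 𝓘(ℝ, ℝ) (cc a) a =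
      (mfderiv (𝓡 1) 𝓘(ℝ, ℝ) (fun z : E 1 => z 0) (chartAt (E 1) a a)).comp
        (mfderiv (𝓡 1) (𝓡 1) (chartAt (E 1) a) a) := mfderiv_comp a h4 h3
  have h6 : mfderiv (𝓡 1) 𝓘(ℝ, ℝ) (fun z : E 1 => z 0) (chartAt (E 1) a a) =
      (EuclideanSpace.proj (0 : Fin 1) : E 1 →L[ℝ] ℝ) := by
    rw [mfderiv_eq_fderiv]
    exact (EuclideanSpace.proj (0 : Fin 1) : E 1 →L[ℝ] ℝ).fderiv
  rw [h5, h6]
  intro v w hvw
  apply h2
  have key : ∀ C : E 1 →L[ℝ] E 1, ∀ v w : E 1, (C v) 0 = (C w) 0 → C v = C w := by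
    intro C v w h
    have h8 : C v - C w = 0 := by
      apply proj_inj
      rw [PiLp.sub_apply, h, sub_self]
    exact sub_eq_zero.1 h8
  exact key (mfderiv (𝓡 1) (𝓡 1) (chartAt (E 1) a) a) v w hvw

theorem s_FIB : S_FIB := by
  intro m M _ _ _ p a hp hpa
  have hflat : LocFlat m {x : M | p x = a} := by
    intro x hx
    obtain ⟨hn, hs⟩ := hpa x hx
    have hx' : p x = a := hx
    have hnear : ∀ᶠ y in 𝓝 x, ContMDiffAt (𝓡 (m + 1)) 𝓘(ℝ, ℝ) ∞ (fun y => cc a (p y)) y := by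
      have h1 : ∀ᶠ y in 𝓝 x, ContMDiffAt (𝓡 1) 𝓘(ℝ, ℝ) ∞ (cc a) (p y) := by
        have h2 : Tendsto p (𝓝 x) (𝓝 a) := by
          have := hp.continuousAt (x := x)
          rwa [ContinuousAt, hx'] at this
        exact h2.eventually (cc_smooth a)
      filter_upwards [h1, hn] with y hy1 hy2
      exact ContMDiffAt.comp y hy1 hy2
    have hd : mfderiv (𝓡 (m + 1)) 𝓘(ℝ, ℝ) (fun y => cc a (p y)) x ≠ 0 := by
      have h1 : MDifferentiableAt (𝓡 (m + 1)) (𝓡 1) p x :=
        hn.self_of_nhds.mdifferentiableAt (by simp)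
      have h2 : MDifferentiableAt (𝓡 1) 𝓘(ℝ, ℝ) (cc a) (p x) := by
        rw [hx']
        exact (cc_smooth a).self_of_nhds.mdifferentiableAt (by simp)
      have h3 : mfderiv (𝓡 (m + 1)) 𝓘(ℝ, ℝ) (fun y => cc a (p y)) x =
          (mfderiv (𝓡 1) 𝓘(ℝ, ℝ) (cc a) (p x)).comp (mfderiv (𝓡 (m + 1)) (𝓡 1) p x) :=
        mfderiv_comp x h2 h1
      intro h0
      obtain ⟨v, hv⟩ := hs (show TangentSpace (𝓡 1) (p x) from (e0 : E 1))
      have h4 : mfderiv (𝓡 1) 𝓘(ℝ, ℝ) (cc a) (p x) (mfderiv (𝓡 (m + 1)) (𝓡 1) p x v) = 0 := by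
        have h5 := congrArg (fun L => L v) h3
        rw [h0] at h5
        exact h5.symm
      rw [hv] at h4
      have h6 : Injective (mfderiv (𝓡 1) 𝓘(ℝ, ℝ) (cc a) (p x)) := by
        rw [hx']
        exact cc_inj a
      have h7 : (show TangentSpace (𝓡 1) (p x) from (e0 : E 1)) = 0 :=
        h6 (h4.trans (map_zero _).symm)
      have h8 : (e0 : E 1) 0 = 0 := by
        have h9 : (e0 : E 1) = 0 := h7
        rw [h9]
        rfl
      simp [e0] at h8
    obtain ⟨e, he1, -, he3⟩ := Pool.Agent.Y641.SH.stAdapt m M (fun y => cc a (p y)) x hnear hd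
    refine ⟨e, he1, ?_⟩
    have h1 : ∀ᶠ y in 𝓝 x, p y ∈ (chartAt (E 1) a).source := by
      apply hp.continuousAt
      rw [hx']
      exact (chartAt (E 1) a).open_source.mem_nhds (mem_chart_source (E 1) a)
    filter_upwards [he3, h1] with y hy1 hy2
    rw [hy1, sub_eq_zero, hx', cc_eq hy2]
  obtain ⟨cs, h1, h2, h3⟩ := Pool.Agent.Y641.SH.stLevel m M {x : M | p x = a} hflat
  letI : ChartedSpace (E m) {x : M // p x = a} := cs
  have h1' : IsManifold (𝓡 m) ∞ {x : M // p x = a} := h1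
  have h2' : ContMDiff (𝓡 m) (𝓡 (m + 1)) ∞ (Subtype.val : {x : M // p x = a} → M) := h2
  have h3' : ∀ y : {x : M // p x = a},
      Injective (mfderiv (𝓡 m) (𝓡 (m + 1)) (Subtype.val : {x : M // p x = a} → M) y) := h3
  refine ⟨cs, h1, h2, h3, ?_⟩
  intro y v hv
  set A : E m →L[ℝ] E (m + 1) :=
    mfderiv (𝓡 m) (𝓡 (m + 1)) (Subtype.val : {x : M // p x = a} → M) y with hA
  set B : E (m + 1) →L[ℝ] E 1 := mfderiv (𝓡 (m + 1)) (𝓡 1) p (y : M) with hB
  have hsur : Surjective B := (hpa y y.2).2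
  have hinj : Injective A := h3' y
  have hcomp : ∀ w, B (A w) = 0 := by
    have a1 : MDifferentiableAt (𝓡 (m + 1)) (𝓡 1) p (y : M) :=
      (hpa y y.2).1.self_of_nhds.mdifferentiableAt (by simp)
    have a2 : MDifferentiableAt (𝓡 m) (𝓡 (m + 1)) (Subtype.val : {x : M // p x = a} → M) y :=
      (h2' y).mdifferentiableAt (by simp)
    have a3 := mfderiv_comp y a1 a2
    have a4 : p ∘ (Subtype.val : {x : M // p x = a} → M) = fun _ => a := by
      funext z
      exact z.2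
    rw [a4, mfderiv_const] at a3
    intro w
    exact (congrArg (fun L => L w) a3).symm
  have hle : LinearMap.range A.toLinearMap ≤ LinearMap.ker B.toLinearMap := by
    rintro _ ⟨w, rfl⟩
    exact hcomp w
  have hd1 : Module.finrank ℝ (LinearMap.range A.toLinearMap) = m := by
    rw [LinearMap.finrank_range_of_inj hinj, finrank_euclideanSpace, Fintype.card_fin]
  have hd2 : Module.finrank ℝ (LinearMap.ker B.toLinearMap) = m := by
    have b1 := B.toLinearMap.finrank_range_add_finrank_ker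
    rw [LinearMap.range_eq_top.2 hsur, finrank_top, finrank_euclideanSpace, Fintype.card_fin,
      finrank_euclideanSpace, Fintype.card_fin] at b1
    omega
  have heq : LinearMap.range A.toLinearMap = LinearMap.ker B.toLinearMap :=
    Submodule.eq_of_le_of_finrank_eq hle (hd1.trans hd2.symm)
  have hv' : v ∈ LinearMap.ker B.toLinearMap := hv
  rw [← heq] at hv'
  obtain ⟨w, hw⟩ := hv'
  exact ⟨w, hw⟩

end Pool.Agent.L7h23.PS
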