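import Pool.Agent.N550.PS.Stm

/-!
# Project PS: the product manifold (S_PR)
-/

set_option autoImplicit false

open Set Filter Topology Metric Function MeasureTheory
open scoped Manifold ContDiff

noncomputable section

namespace Pool.Agent.L7h23.PS.Pr

open Pool.Agent.Y522 Pool.Agent.N550.SH Pool.Agent.N550.KH Pool.Agent.N550.PS

/-- the inverse function theorem (as in Pool.Agent.N550.PS.Cir) -/
theorem ld_of_inj {n : ℕ} {M : Type} [TopologicalSpace M] [ChartedSpace (E n) M]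
    [IsManifold (𝓡 n) ∞ M] (G : M → E n) (x : M)
    (hG : ∀ᶠ y in 𝓝 x, ContMDiffAt (𝓡 n) (𝓡 n) ∞ G y)
    (hi : Injective (mfderiv (𝓡 n) (𝓡 n) G x)) : LD n G x := by
  set e := chartAt (E n) x with he
  have hxs : x ∈ e.source := mem_chart_source _ x
  set z0 := e x with hz0
  have hz0t : z0 ∈ e.target := e.map_source hxs
  have hsymm0 : e.symm z0 = x := e.left_inv hxs
  have htend : Tendsto e.symm (𝓝 z0) (𝓝 x) := by
    have := e.continuousAt_symm hz0t
    unfold ContinuousAt at this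
    rwa [hsymm0] at this
  have hsm : ∀ᶠ z in 𝓝 z0, ContDiffAt ℝ ∞ (fun z => G (e.symm z)) z := by
    filter_upwards [htend.eventually hG, e.open_target.mem_nhds hz0t] with z hz1 hz2
    exact contMDiffAt_iff_contDiffAt.1
      (ContMDiffAt.comp (g := G) z hz1 (ld_chart_symm' x z hz2).contMDiffAt)
  have hd := (hsm.self_of_nhds.differentiableAt (by simp)).hasFDerivAt
  have hls : LD n e.symm z0 := ld_chart_symm' x z0 hz0t
  have hGx : MDifferentiableAt (𝓡 n) (𝓡 n) G (e.symm z0) := by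
    rw [hsymm0]
    exact hG.self_of_nhds.mdifferentiableAt (by simp)
  have hc : mfderiv (𝓡 n) (𝓡 n) (fun z => G (e.symm z)) z0 =
      (mfderiv (𝓡 n) (𝓡 n) G (e.symm z0)).comp (mfderiv (𝓡 n) (𝓡 n) e.symm z0) :=
    mfderiv_comp z0 hGx hls.mdifferentiableAt
  have hinj : Injective (fderiv ℝ (fun z => G (e.symm z)) z0) := by
    rw [injective_iff_map_eq_zero]
    intro w hw
    have h1 : mfderiv (𝓡 n) (𝓡 n) (fun z => G (e.symm z)) z0 w = 0 := by
      rw [mfderiv_eq_fderiv]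
      exact hw
    rw [hc] at h1
    have h2 : mfderiv (𝓡 n) (𝓡 n) G (e.symm z0) (mfderiv (𝓡 n) (𝓡 n) e.symm z0 w) = 0 := h1
    have hi' : Injective (mfderiv (𝓡 n) (𝓡 n) G (e.symm z0)) := by
      rw [hsymm0]
      exact hi
    have h3 : mfderiv (𝓡 n) (𝓡 n) e.symm z0 w = 0 := hi' (h2.trans (map_zero _).symm)
    exact hls.mfderiv_injective (h3.trans (map_zero _).symm)
  obtain ⟨A, hA⟩ : ∃ A : E n ≃L[ℝ] E n, (A : E n →L[ℝ] E n) =
      fderiv ℝ (fun z => G (e.symm z)) z0 := by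
    refine ⟨(LinearEquiv.ofInjectiveEndo
      (fderiv ℝ (fun z => G (e.symm z)) z0 : E n →ₗ[ℝ] E n) hinj).toContinuousLinearEquiv, ?_⟩
    ext w : 1
    rfl
  have hLD : LD n (fun z => G (e.symm z)) z0 := LD_of_contDiffAt hsm A (by rw [hA]; exact hd)
  refine (LD.comp_fun (g := fun z => G (e.symm z)) (f := e) hLD (ld_chart' x x hxs)).congr ?_
  filter_upwards [e.open_source.mem_nhds hxs] with y hy
  rw [e.left_inv hy]

/-- the linear identification -/
def JJ (m : ℕ) : (E 1 × E m) ≃L[ℝ] E (m + 1) :=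
  ContinuousLinearEquiv.ofFinrankEq (by
    rw [Module.finrank_prod, finrank_euclideanSpace, finrank_euclideanSpace,
      finrank_euclideanSpace, Fintype.card_fin, Fintype.card_fin, Fintype.card_fin, add_comm])

section

variable {m : ℕ} {Y : Type} [TopologicalSpace Y] [ChartedSpace (E m) Y]

/-- the charts of the product -/
def pch (z : Sp 1 × Y) : OpenPartialHomeomorph (Sp 1 × Y) (E (m + 1)) :=
  ((chartAt (E 1) z.1).prod (chartAt (E m) z.2)) ≫ₕ
    (JJ m).toHomeomorph.toOpenPartialHomeomorph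

theorem pch_source (z : Sp 1 × Y) : (pch (m := m) z).source =
    {u | u.1 ∈ (chartAt (E 1) z.1).source ∧ u.2 ∈ (chartAt (E m) z.2).source} := by
  ext u
  simp [pch]

theorem pch_target (z : Sp 1 × Y) : (pch (m := m) z).target =
    {w | ((JJ m).symm w).1 ∈ (chartAt (E 1) z.1).target ∧
      ((JJ m).symm w).2 ∈ (chartAt (E m) z.2).target} := by
  ext w
  simp [pch]

theorem pch_apply (z u : Sp 1 × Y) : pch (m := m) z u =
    JJ m (chartAt (E 1) z.1 u.1, chartAt (E m) z.2 u.2) := rfl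

theorem pch_symm_apply (z : Sp 1 × Y) (w : E (m + 1)) : (pch (m := m) z).symm w =
    ((chartAt (E 1) z.1).symm ((JJ m).symm w).1, (chartAt (E m) z.2).symm ((JJ m).symm w).2) :=
  rfl

/-- the manifold structure -/
def cs (m : ℕ) (Y : Type) [TopologicalSpace Y] [ChartedSpace (E m) Y] :
    ChartedSpace (E (m + 1)) (Sp 1 × Y) where
  atlas := Set.range fun z => pch z
  chartAt := fun z => pch z
  mem_chart_source := fun z => by
    rw [pch_source]
    exact ⟨mem_chart_source _ _, mem_chart_source _ _⟩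
  chart_mem_atlas := fun z => ⟨z, rfl⟩

variable [IsManifold (𝓡 m) ∞ Y]

theorem trans_smooth (z z' : Sp 1 × Y) : ContDiffOn ℝ ∞
    ((pch (m := m) z).symm ≫ₕ pch (m := m) z') ((pch (m := m) z).symm ≫ₕ pch (m := m) z').source := by
  intro w hw
  rw [OpenPartialHomeomorph.trans_source, OpenPartialHomeomorph.symm_source, pch_target] at hw
  obtain ⟨⟨hw1, hw2⟩, hw3⟩ := hw
  have hw3' : (pch (m := m) z).symm w ∈ (pch (m := m) z').source := hw3
  rw [pch_source] at hw3'
  have hw4 : (chartAt (E 1) z.1).symm ((JJ m).symm w).1 ∈ (chartAt (E 1) z'.1).source := hw3'.1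
  have hw5 : (chartAt (E m) z.2).symm ((JJ m).symm w).2 ∈ (chartAt (E m) z'.2).source := hw3'.2
  have h1 : ContDiffAt ℝ ∞ (fun u : E 1 => chartAt (E 1) z'.1 ((chartAt (E 1) z.1).symm u))
      ((JJ m).symm w).1 :=
    contMDiffAt_iff_contDiffAt.1 (((ld_chart' z'.1 _ hw4).comp_fun
      (ld_chart_symm' z.1 _ hw1)).contMDiffAt)
  have h2 : ContDiffAt ℝ ∞ (fun u : E m => chartAt (E m) z'.2 ((chartAt (E m) z.2).symm u))
      ((JJ m).symm w).2 :=
    contMDiffAt_iff_contDiffAt.1 (((ld_chart' z'.2 _ hw5).comp_fun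
      (ld_chart_symm' z.2 _ hw2)).contMDiffAt)
  have h3 : ContDiffAt ℝ ∞ (fun w : E (m + 1) => ((JJ m).symm w).1) w :=
    contDiffAt_fst.comp w (JJ m).symm.contDiff.contDiffAt
  have h4 : ContDiffAt ℝ ∞ (fun w : E (m + 1) => ((JJ m).symm w).2) w :=
    contDiffAt_snd.comp w (JJ m).symm.contDiff.contDiffAt
  have h5 := ((h1.comp w h3).prodMk (h2.comp w h4))
  exact ((JJ m).contDiff.contDiffAt.comp w h5).contDiffWithinAt

theorem csM : @IsManifold ℝ _ _ _ _ (E (m + 1)) _ (𝓡 (m + 1)) ∞ (Sp 1 × Y) _ (cs m Y) := by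
  letI := cs m Y
  refine isManifold_of_contDiffOn (𝓡 (m + 1)) ∞ (Sp 1 × Y) ?_
  rintro _ _ ⟨z, rfl⟩ ⟨z', rfl⟩
  have h := trans_smooth (m := m) z z'
  simpa using h

/-- the identity from the new to the standard structure -/
theorem id_smooth (z : Sp 1 × Y) :
    @ContMDiffAt ℝ _ _ _ _ _ _ (𝓡 (m + 1)) (Sp 1 × Y) _ (cs m Y) _ _ _ _ _
      ((𝓡 1).prod (𝓡 m)) (Sp 1 × Y) _ _ ∞ (fun u => u) z := by
  letI := cs m Y
  haveI : IsManifold (𝓡 (m + 1)) ∞ (Sp 1 × Y) := csM
  have hc : ContMDiffAt (𝓡 (m + 1)) (𝓡 (m + 1)) ∞ (pch (m := m) z) z :=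
    (ld_chart' (n := m + 1) z z (mem_chart_source _ z)).contMDiffAt
  have hz1 : z.1 ∈ (chartAt (E 1) z.1).source := mem_chart_source _ _
  have hz2 : z.2 ∈ (chartAt (E m) z.2).source := mem_chart_source _ _
  have hJ : ContMDiffAt (𝓡 (m + 1)) (𝓡 1) ∞ (fun w : E (m + 1) => ((JJ m).symm w).1)
      (pch (m := m) z z) :=
    contMDiffAt_iff_contDiffAt.2 (contDiffAt_fst.comp _ (JJ m).symm.contDiff.contDiffAt)
  have hJ' : ContMDiffAt (𝓡 (m + 1)) (𝓡 m) ∞ (fun w : E (m + 1) => ((JJ m).symm w).2)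
      (pch (m := m) z z) :=
    contMDiffAt_iff_contDiffAt.2 (contDiffAt_snd.comp _ (JJ m).symm.contDiff.contDiffAt)
  have e1 : ((JJ m).symm (pch (m := m) z z)).1 = chartAt (E 1) z.1 z.1 := by
    rw [pch_apply, ContinuousLinearEquiv.symm_apply_apply]
  have e2 : ((JJ m).symm (pch (m := m) z z)).2 = chartAt (E m) z.2 z.2 := by
    rw [pch_apply, ContinuousLinearEquiv.symm_apply_apply]
  have s1 : ContMDiffAt (𝓡 1) (𝓡 1) ∞ (chartAt (E 1) z.1).symm
      ((JJ m).symm (pch (m := m) z z)).1 := by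
    rw [e1]
    exact (ld_chart_symm' z.1 _ ((chartAt (E 1) z.1).map_source hz1)).contMDiffAt
  have s2 : ContMDiffAt (𝓡 m) (𝓡 m) ∞ (chartAt (E m) z.2).symm
      ((JJ m).symm (pch (m := m) z z)).2 := by
    rw [e2]
    exact (ld_chart_symm' z.2 _ ((chartAt (E m) z.2).map_source hz2)).contMDiffAt
  have hn : (pch (m := m) z).source ∈ 𝓝 z :=
    (pch (m := m) z).open_source.mem_nhds (by rw [pch_source]; exact ⟨hz1, hz2⟩)
  have h1 : ContMDiffAt (𝓡 (m + 1)) (𝓡 1) ∞ (fun u : Sp 1 × Y => u.1) z := by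
    have h := ContMDiffAt.comp (g := (chartAt (E 1) z.1).symm)
      (f := fun u : Sp 1 × Y => ((JJ m).symm (pch (m := m) z u)).1) z s1
      (ContMDiffAt.comp (g := fun w : E (m + 1) => ((JJ m).symm w).1) z hJ hc)
    refine h.congr_of_eventuallyEq ?_
    filter_upwards [hn] with u hu
    rw [pch_source] at hu
    simp only [Function.comp_apply]
    rw [pch_apply, ContinuousLinearEquiv.symm_apply_apply]
    exact ((chartAt (E 1) z.1).left_inv hu.1).symm
  have h2 : ContMDiffAt (𝓡 (m + 1)) (𝓡 m) ∞ (fun u : Sp 1 × Y => u.2) z := by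
    have h := ContMDiffAt.comp (g := (chartAt (E m) z.2).symm)
      (f := fun u : Sp 1 × Y => ((JJ m).symm (pch (m := m) z u)).2) z s2
      (ContMDiffAt.comp (g := fun w : E (m + 1) => ((JJ m).symm w).2) z hJ' hc)
    refine h.congr_of_eventuallyEq ?_
    filter_upwards [hn] with u hu
    rw [pch_source] at hu
    simp only [Function.comp_apply]
    rw [pch_apply, ContinuousLinearEquiv.symm_apply_apply]
    exact ((chartAt (E m) z.2).left_inv hu.2).symm
  exact h1.prodMk h2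

/-- a map is smooth for the new structure if its components are smooth -/
theorem comp_smooth {H : Type} [TopologicalSpace H] {F : Type} [NormedAddCommGroup F]
    [NormedSpace ℝ F] (I : ModelWithCorners ℝ F H) {M : Type} [TopologicalSpace M]
    [ChartedSpace H M] (p : M → Sp 1) (π : M → Y) (x : M)
    (hp : ContMDiffAt I (𝓡 1) ∞ p x) (hπ : ContMDiffAt I (𝓡 m) ∞ π x) :
    @ContMDiffAt ℝ _ _ _ _ _ _ I M _ _ _ _ _ _ _
      (𝓡 (m + 1)) (Sp 1 × Y) _ (cs m Y) ∞ (fun u => (p u, π u)) x := by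
  letI := cs m Y
  haveI : IsManifold (𝓡 (m + 1)) ∞ (Sp 1 × Y) := csM
  set z : Sp 1 × Y := (p x, π x) with hz
  have hz1 : z.1 ∈ (chartAt (E 1) z.1).source := mem_chart_source _ _
  have hz2 : z.2 ∈ (chartAt (E m) z.2).source := mem_chart_source _ _
  have hzs : z ∈ (pch (m := m) z).source := by rw [pch_source]; exact ⟨hz1, hz2⟩
  have hcs : ContMDiffAt (𝓡 (m + 1)) (𝓡 (m + 1)) ∞ (pch (m := m) z).symm (pch (m := m) z z) :=
    (ld_chart_symm' (n := m + 1) z _ ((pch (m := m) z).map_source hzs)).contMDiffAt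
  have c1 : ContMDiffAt I (𝓡 1) ∞ (fun u => chartAt (E 1) z.1 (p u)) x :=
    ContMDiffAt.comp (g := chartAt (E 1) z.1) x (ld_chart' z.1 _ hz1).contMDiffAt hp
  have c2 : ContMDiffAt I (𝓡 m) ∞ (fun u => chartAt (E m) z.2 (π u)) x :=
    ContMDiffAt.comp (g := chartAt (E m) z.2) x (ld_chart' z.2 _ hz2).contMDiffAt hπ
  have c3 : ContMDiffAt I 𝓘(ℝ, E 1 × E m) ∞
      (fun u => (chartAt (E 1) z.1 (p u), chartAt (E m) z.2 (π u))) x := c1.prodMk_space c2
  have c4 : ContMDiffAt I (𝓡 (m + 1)) ∞ (fun u => pch (m := m) z (p u, π u)) x :=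
    ContMDiffAt.comp (g := JJ m) x (JJ m).contDiff.contMDiff.contMDiffAt c3
  have c5 := ContMDiffAt.comp (g := (pch (m := m) z).symm) (f := fun u => pch (m := m) z (p u, π u))
    x hcs c4
  refine c5.congr_of_eventuallyEq ?_
  have hn : ∀ᶠ u in 𝓝 x, (p u, π u) ∈ (pch (m := m) z).source :=
    (hp.continuousAt.prodMk hπ.continuousAt).eventually ((pch (m := m) z).open_source.mem_nhds hzs)
  filter_upwards [hn] with u hu
  exact ((pch (m := m) z).left_inv hu).symm

/-- the identity is a diffeomorphism from the new to the standard structure -/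
theorem id_ld (z : Sp 1 × Y) :
    @IsLocalDiffeomorphAt ℝ _ _ _ _ _ _ _ _ _ _ _ (𝓡 (m + 1)) ((𝓡 1).prod (𝓡 m))
      (Sp 1 × Y) _ (cs m Y) (Sp 1 × Y) _ _ ∞ (fun u => u) z := by
  letI := cs m Y
  refine ⟨{ toPartialEquiv := PartialEquiv.refl _
            open_source := isOpen_univ
            open_target := isOpen_univ
            contMDiffOn_toFun := fun u _ => (id_smooth u).contMDiffWithinAt
            contMDiffOn_invFun := fun u _ => (comp_smooth ((𝓡 1).prod (𝓡 m)) Prod.fst Prod.snd u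
              contMDiffAt_fst contMDiffAt_snd).contMDiffWithinAt }, mem_univ _, fun _ _ => rfl⟩

/-- the inverse function theorem for maps to the product -/
theorem prod_ld (M : Type) [TopologicalSpace M] [ChartedSpace (E (m + 1)) M]
    [IsManifold (𝓡 (m + 1)) ∞ M] (p : M → Sp 1) (π : M → Y) (x : M)
    (hp : NearS (n := m + 1) p x) (hπ : ∀ᶠ y in 𝓝 x, ContMDiffAt (𝓡 (m + 1)) (𝓡 m) ∞ π y)
    (hk : ∀ v : TangentSpace (𝓡 (m + 1)) x, mfderiv (𝓡 (m + 1)) (𝓡 1) p x v = 0 →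
      mfderiv (𝓡 (m + 1)) (𝓡 m) π x v = 0 → v = 0) :
    @LD (m + 1) M (Sp 1 × Y) _ _ _ (cs m Y) (fun y => (p y, π y)) x := by
  letI := cs m Y
  haveI : IsManifold (𝓡 (m + 1)) ∞ (Sp 1 × Y) := csM
  set z : Sp 1 × Y := (p x, π x) with hz
  have hz1 : z.1 ∈ (chartAt (E 1) z.1).source := mem_chart_source _ _
  have hz2 : z.2 ∈ (chartAt (E m) z.2).source := mem_chart_source _ _
  have hzs : z ∈ (pch (m := m) z).source := by rw [pch_source]; exact ⟨hz1, hz2⟩
  have hn : ∀ᶠ u in 𝓝 x, (p u, π u) ∈ (pch (m := m) z).source :=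
    (hp.self_of_nhds.continuousAt.prodMk hπ.self_of_nhds.continuousAt).eventually
      ((pch (m := m) z).open_source.mem_nhds hzs)
  set G : M → E (m + 1) := fun u => pch (m := m) z (p u, π u) with hG
  have hGs : ∀ᶠ y in 𝓝 x, ContMDiffAt (𝓡 (m + 1)) (𝓡 (m + 1)) ∞ G y := by
    filter_upwards [hn, hp, hπ] with y hy hpy hπy
    have h1 := comp_smooth (𝓡 (m + 1)) p π y hpy hπy
    exact ContMDiffAt.comp (g := pch (m := m) z) y
      (ld_chart' (n := m + 1) z _ hy).contMDiffAt h1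
  have hGd : MDifferentiableAt (𝓡 (m + 1)) (𝓡 (m + 1)) G x :=
    hGs.self_of_nhds.mdifferentiableAt (by simp)
  have hinj : Injective (mfderiv (𝓡 (m + 1)) (𝓡 (m + 1)) G x) := by
    set D : E (m + 1) →L[ℝ] E (m + 1) := mfderiv (𝓡 (m + 1)) (𝓡 (m + 1)) G x with hD
    have ep : mfderiv (𝓡 (m + 1)) (𝓡 1) (fun u => chartAt (E 1) z.1 (p u)) x =
        (mfderiv (𝓡 1) (𝓡 1) (chartAt (E 1) z.1) (p x)).comp
          (mfderiv (𝓡 (m + 1)) (𝓡 1) p x) :=
      mfderiv_comp x ((ld_chart' z.1 _ hz1).mdifferentiableAt)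
        (hp.self_of_nhds.mdifferentiableAt (by simp))
    have eq : mfderiv (𝓡 (m + 1)) (𝓡 m) (fun u => chartAt (E m) z.2 (π u)) x =
        (mfderiv (𝓡 m) (𝓡 m) (chartAt (E m) z.2) (π x)).comp
          (mfderiv (𝓡 (m + 1)) (𝓡 m) π x) :=
      mfderiv_comp x ((ld_chart' z.2 _ hz2).mdifferentiableAt)
        (hπ.self_of_nhds.mdifferentiableAt (by simp))
    set L₁ : E (m + 1) →L[ℝ] E 1 := (ContinuousLinearMap.fst ℝ (E 1) (E m)).comp
      ((JJ m).symm : E (m + 1) →L[ℝ] E 1 × E m) with hL₁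
    set L₂ : E (m + 1) →L[ℝ] E m := (ContinuousLinearMap.snd ℝ (E 1) (E m)).comp
      ((JJ m).symm : E (m + 1) →L[ℝ] E 1 × E m) with hL₂
    have f₁ : (fun u => chartAt (E 1) z.1 (p u)) = L₁ ∘ G := by
      funext y
      show chartAt (E 1) z.1 (p y) = ((JJ m).symm (pch (m := m) z (p y, π y))).1
      rw [pch_apply, ContinuousLinearEquiv.symm_apply_apply]
    have f₂ : (fun u => chartAt (E m) z.2 (π u)) = L₂ ∘ G := by
      funext y
      show chartAt (E m) z.2 (π y) = ((JJ m).symm (pch (m := m) z (p y, π y))).2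
      rw [pch_apply, ContinuousLinearEquiv.symm_apply_apply]
    have g₁ : mfderiv (𝓡 (m + 1)) (𝓡 1) (fun u => chartAt (E 1) z.1 (p u)) x = L₁.comp D := by
      rw [f₁, mfderiv_comp x (L₁.contDiff.contMDiff.mdifferentiableAt (n := ∞) (by simp)) hGd]
      rw [mfderiv_eq_fderiv, L₁.fderiv]
      rfl
    have g₂ : mfderiv (𝓡 (m + 1)) (𝓡 m) (fun u => chartAt (E m) z.2 (π u)) x = L₂.comp D := by
      rw [f₂, mfderiv_comp x (L₂.contDiff.contMDiff.mdifferentiableAt (n := ∞) (by simp)) hGd]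
      rw [mfderiv_eq_fderiv, L₂.fderiv]
      rfl
    rw [injective_iff_map_eq_zero]
    intro v hv
    have k₁ : L₁ (D v) = (mfderiv (𝓡 1) (𝓡 1) (chartAt (E 1) z.1) (p x))
        (mfderiv (𝓡 (m + 1)) (𝓡 1) p x v) := DFunLike.congr_fun (g₁.symm.trans ep) v
    have k₂ : L₂ (D v) = (mfderiv (𝓡 m) (𝓡 m) (chartAt (E m) z.2) (π x))
        (mfderiv (𝓡 (m + 1)) (𝓡 m) π x v) := DFunLike.congr_fun (g₂.symm.trans eq) v
    have hv' : D v = 0 := hv
    rw [hv'] at k₁ k₂
    apply hk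
    · apply (ld_chart' z.1 (p x) hz1).mfderiv_injective
      rw [← k₁]
      exact (map_zero L₁).trans (map_zero _).symm
    · apply (ld_chart' z.2 (π x) hz2).mfderiv_injective
      rw [← k₂]
      exact (map_zero L₂).trans (map_zero _).symm
  have h1 : LD (m + 1) G x := ld_of_inj G x hGs hinj
  have h2 : LD (m + 1) (pch (m := m) z).symm (G x) :=
    ld_chart_symm' (n := m + 1) z _ ((pch (m := m) z).map_source hzs)
  refine (LD.comp_fun h2 h1).congr ?_
  filter_upwards [hn] with u hu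
  exact ((pch (m := m) z).left_inv hu).symm

end

theorem s_PR : S_PR := by
  intro m Y _ _ _
  refine ⟨cs m Y, ?_, ?_⟩
  · intro M _ _ _ p π x hp hπ hk
    exact prod_ld M p π x hp hπ hk
  · intro M _ _ G x hG
    letI := cs m Y
    exact IsLocalDiffeomorphAt.comp (J := 𝓡 (m + 1)) _ _ hG (id_ld (G x))

end Pool.Agent.L7h23.PS.Pr
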